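import Pool.Agent.Helper64_AEC.WAsm

set_option autoImplicit false

/-!
# MP_23d7af_lc: density of amalgamation bases, in ZFC

For every cardinal `κ` there is a cardinal `μ` such that the following holds for every abstract
elementary class `K` with `LS(K) ≤ κ` and every cardinal `l` in which `K` is categorical.  Let `M`
be a member of `K` with `κ ≤ |M|`, and assume that `μ ≤ l`, or that `l ≤ 2 ^ |M| < 2 ^ l`.  Then `M`
has a `K`-extension `N` which is an amalgamation base for families, and which is maximal or
satisfies `2 ^ |N| = 2 ^ |M|`.  If `2 ^ |M| < 2 ^ l` then moreover `|N| < l`.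

Here an amalgamation base for families is a member `N` such that every family `f i : N → B i`
(`i ∈ ι`) of extensions of `N` with `2 ^ |ι| ≤ 2 ^ |N|` and `2 ^ |B i| ≤ 2 ^ |N|` for all `i` can be
amalgamated over `N`; in particular any two (or any `|N|`) extensions of the cardinality of `N` can
be amalgamated over `N`.

No hypothesis on cardinal arithmetic, no large cardinals, no hypothesis on maximal members, one
categoricity cardinal.  Under the generalized continuum hypothesis `2 ^ |N| = 2 ^ |M|` says
`|N| = |M|`.  Consequences: if `μ, κ ≤ l`, `2 ^ l < 2 ^ (l⁺)` and `K` has no maximal members, then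
`AP_l`; if `K` is categorical in all cardinals `≥ χ₀ ≥ κ` then for every `χ ≥ χ₀` there is
`ν ≥ χ` with `2 ^ ν = 2 ^ χ` and `AP_ν`.

*Proof.*  Let `θ` be the least cardinal with `2 ^ |M| < 2 ^ θ`; so `|M| < θ ≤ 2 ^ |M|`, and unions
of fewer than `θ` sets of cardinality `< θ` have cardinality `< θ`.  Assume that the conclusion
fails.  Then for every extension `N` of `M` of cardinality `< θ` there are two extensions of `N` of
cardinality `< θ` which cannot be amalgamated over `N` (otherwise families can be amalgamated one
after the other), and one builds a binary tree of height `θ` of extensions of `M` of cardinality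
`< θ`, continuous along branches, such that the two successors of a node cannot be amalgamated over
it.  All the `2 ^ θ` branches embed in one member `T` of cardinality at most `2 ^ |M|`: the member of
cardinality `l` if `l ≤ 2 ^ |M|`, and otherwise the Ehrenfeucht-Mostowski member over a linear order
of cardinality `θ` in which all well-orders of cardinality `θ` embed.  There are at most `2 ^ |M|`
subsets of cardinality `< θ` of a set of cardinality `2 ^ |M|`, so a counting argument of
Devlin-Shelah type gives a node, and two branches through its two successors, which are embedded in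
`T` in the same way on the node: a contradiction.
-/

open FirstOrder FirstOrder.Language Cardinal Set

universe u

namespace Pool.Agent.Results.MP_23d7af_lc.AmalgamationBases

open Pool.Agent.AEC

theorem result : ∀ κ : Cardinal.{u}, ∃ μ : Cardinal.{u},
    ∀ (L : FirstOrder.Language.{u, u}) (K : Pool.Agent.AEC.AEC L κ) (l : Cardinal.{u}), K.Cat l →
    ∀ M : K.Mod, κ ≤ #M.α →
      (μ ≤ l ∨ (l ≤ 2 ^ #M.α ∧ (2 : Cardinal.{u}) ^ #M.α < 2 ^ l)) →
      ∃ (N : K.Mod) (_ : K.Hom M N), AEC.IsFamBase N ∧
        (AEC.IsMax N ∨ (2 : Cardinal.{u}) ^ #N.α = 2 ^ #M.α) ∧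
        ((2 : Cardinal.{u}) ^ #M.α < 2 ^ l → #N.α < l) :=
  Pool.Agent.AECZ.wall

end Pool.Agent.Results.MP_23d7af_lc.AmalgamationBases
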