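import Pool.Agent.Helper69_AEC.Base
import Pool.Agent.Helper58_AFX.UNI
import Pool.Agent.Helper1_AFX.TO3

/-!
# Amalgamation, small sets and free extensions in a categoricity cardinal `l = l ^ χ`, in ZFC

For every `κ` there is `μ` such that the following holds for every abstract elementary class `K`
with `LS(K) ≤ κ ≤ χ` which is categorical in an infinite cardinal `l = l ^ χ`.  If every extension
`N` of `M` [of cardinality `< l`] has a proper free extension `T` (one which can be amalgamated over
`N` with every extension of `N`), then every family of extensions of `M` [of cardinalities `≤ l`]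
can be amalgamated over every subset `A` of `M` [of cardinality `≤ χ`].  For `χ ≥ μ` the three
conditions in square brackets may be omitted (this is `s = True`).

* If `M` has cardinality `l` the hypothesis on `M` is void: amalgamation in `l` over small sets.
* If `M` has cardinality at most `χ`, or `χ ≥ μ`: amalgamation over `M`.
-/

open FirstOrder FirstOrder.Language Cardinal Set

universe u

namespace Pool.Agent.Results.MP_23d7af_lc.FreeExtensions

open Pool.Agent.AEC

theorem result : ∀ κ : Cardinal.{u}, ∃ μ : Cardinal.{u},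
    ∀ (L : FirstOrder.Language.{u, u}) (K : AEC L κ) (l χ : Cardinal.{u}),
      κ ≤ χ → ℵ₀ ≤ l → l ^ χ = l → K.Cat l →
      ∀ s : Prop, (s → μ ≤ χ) → ∀ M : K.Mod,
        (∀ N : K.Mod, K.Hom M N → (s ∨ #N.α < l) →
          ∃ (T : K.Mod) (i : K.Hom N T), ¬ Function.Surjective i ∧
            ∀ (P : K.Mod) (g : K.Hom N P),
              ∃ (Z : K.Mod) (a : K.Hom T Z) (b : K.Hom P Z), ∀ x, a (i x) = b (g x)) →
        ∀ A : Set M.α, (s ∨ #A ≤ χ) →
          ∀ (ι : Type u) (B : ι → K.Mod) (f : ∀ i, K.Hom M (B i)),
            (s ∨ ∀ i, #(B i).α ≤ l) →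
            ∃ (Z : K.Mod) (w : ∀ i, K.Hom (B i) Z), ∀ i j, ∀ x ∈ A, w i (f i x) = w j (f j x) :=
  Pool.Agent.AFX.H58.uni2 (Pool.Agent.AFX.H58.frs Base.w2g)
    (Pool.Agent.AFX.H1.to3 Base.dlm Base.dlu)

end Pool.Agent.Results.MP_23d7af_lc.FreeExtensions
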