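import Pool.Agent.Helper69_AEC.Base

/-!
# Categoricity in one large cardinal implies local (weak) amalgamation, in ZFC

For every cardinal `κ` there is a cardinal `μ` such that every abstract elementary class `K` with
`LS(K) ≤ κ` which is categorical in some cardinal `l ≥ μ` has the following property: for every
cardinal `χ` every member `M` has an extension `N` such that every family of extensions of `N`
(of arbitrary cardinalities) can be amalgamated over every subset of `N` with at most `χ` elements.
-/

open FirstOrder FirstOrder.Language Cardinal Set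

universe u

namespace Pool.Agent.Results.MP_23d7af_lc.LocalAmalgamation

open Pool.Agent.AEC

theorem result : ∀ κ : Cardinal.{u}, ∃ μ : Cardinal.{u},
    ∀ (L : FirstOrder.Language.{u, u}) (K : AEC L κ), (∃ l : Cardinal.{u}, μ ≤ l ∧ K.Cat l) →
    ∀ (χ : Cardinal.{u}) (M : K.Mod), ∃ (N : K.Mod) (_ : K.Hom M N),
      ∀ A : Set N.α, #A ≤ χ → ∀ (ι : Type u) (B : ι → K.Mod) (f : ∀ i, K.Hom N (B i)),
      ∃ (Z : K.Mod) (w : ∀ i, K.Hom (B i) Z), ∀ i j, ∀ x ∈ A, w i (f i x) = w j (f j x) :=
  Base.lapf

end Pool.Agent.Results.MP_23d7af_lc.LocalAmalgamation
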