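import Pool.Agent.Helper70_AEC.D_FIN

/-!
# MP_23d7af_lc: sparse classes

For every cardinal `κ` there is a cardinal `μ` such that for every abstract elementary class `K` with
`LS(K) ≤ κ` in a relational vocabulary which is categorical in some `l ≥ μ` the following holds.  If
the Gaifman graph of the member of cardinality `l` is not dense (it has no set of `l` vertices of
which no two can be separated by fewer than `l` other vertices) then `K` is categorical and has
amalgamation in every `χ ≥ μ`, and the members of cardinality `χ ≥ μ` are even sparse (among more
than `κ` elements there are always two which can be separated by at most `κ` other elements).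
-/

set_option autoImplicit false

open FirstOrder FirstOrder.Language Cardinal Set

universe u

namespace Pool.Agent.Results.MP_23d7af_lc.SparseClasses

open Pool.Agent.AEC

theorem result : ∀ κ : Cardinal.{u}, ∃ μ : Cardinal.{u},
    ∀ (L : FirstOrder.Language.{u, u}) [L.IsRelational] (K : AEC L κ) (l : Cardinal.{u}),
      μ ≤ l → K.Cat l → (∃ N : K.Mod, #N.α = l ∧ ¬ S.Dense L l N.α) →
        ∀ χ : Cardinal.{u}, μ ≤ χ → K.Cat χ ∧ K.AP χ ∧
          ∀ M : K.Mod, #M.α = χ → S.Sparse L κ M.α :=
  S.H70.sfn2

end Pool.Agent.Results.MP_23d7af_lc.SparseClasses
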